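import Pool.Agent.helper387_fk.Canon
import Pool.Agent.helper387_fk.Table

/-!
The canonical form on the Fomin-Kirillov algebra `E_n` is degenerate for every `n ≥ 6`: a nonzero
homogeneous element of degree 14 is orthogonal to everything.
-/

namespace Pool.Agent.Results.MP_297146_al.DegenerateFromSix

open H387FK

attribute [local irreducible] H387FK.instRing H387FK.instAlg

theorem evf_mem (w : List L) : evf w ∈ deg 6 w.length := by
  induction w with
  | nil =>
    have := smul_one_mem_deg (n := 6) 1
    rwa [one_smul] at this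
  | cons k w ih => exact x_mul_mem_deg _ _ ih

theorem evLf_mem {m : ℕ} {p : List Tm} (h : Len m p) : evLf p ∈ deg 6 m := by
  induction p with
  | nil => exact Submodule.zero_mem _
  | cons tm p ih =>
    obtain ⟨s, q, w⟩ := tm
    refine Submodule.add_mem _ (Submodule.smul_mem _ _ ?_) (ih h.2)
    have := evf_mem (wl w)
    rwa [h.1] at this

/-- For every `n ≥ 6`, the canonical form on the Fomin-Kirillov algebra on `n` points exists, is
unique, and has a nonzero homogeneous element of degree 14 in its radical. -/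
theorem result (n : ℕ) (hn : 6 ≤ n) :
    ∃ F : FK n →ₗ[ℚ] FK n →ₗ[ℚ] ℚ, IsCanonicalForm F ∧ (∀ F', IsCanonicalForm F' → F' = F) ∧
      ∃ P ∈ deg n 14, P ≠ 0 ∧ ∀ Q, F P Q = 0 := by
  refine ⟨B, B_isCanonicalForm, fun F' h => h.eq_B, iota hn Pel, ?_, ?_, ?_⟩
  · exact iota_deg hn 14 (evLf_mem len_Pw)
  · intro h
    apply Pel_ne_zero
    rw [← ret_iota hn Pel, h, map_zero]
  · intro Q
    rw [B_symm, B_iota, rad_Pel]

end Pool.Agent.Results.MP_297146_al.DegenerateFromSix
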